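import Pool.Agent.Helper23.GK.StC

/-!
# Project GK: module BCA (bounding `1/f` in a zero-free disc)
-/

set_option autoImplicit false

namespace Pool.Agent.Helper92.GK

open Pool.Agent.Helper23.GK

/-- a holomorphic logarithm on a ball, normalised at the centre -/
theorem exists_log_ball (f : ℂ → ℂ) (s0 : ℂ) (r : ℝ) (hr : 0 < r)
    (hf : DifferentiableOn ℂ f (Metric.ball s0 r)) (hne : ∀ s ∈ Metric.ball s0 r, f s ≠ 0) :
    ∃ h : ℂ → ℂ, h s0 = 0 ∧ DifferentiableOn ℂ h (Metric.ball s0 r) ∧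
      (∀ s ∈ Metric.ball s0 r, HasDerivAt h (deriv f s / f s) s) ∧
      ∀ s ∈ Metric.ball s0 r, f s = f s0 * Complex.exp (h s) := by
  have hd : DifferentiableOn ℂ (fun s => deriv f s / f s) (Metric.ball s0 r) :=
    (hf.deriv Metric.isOpen_ball).div hf hne
  obtain ⟨h, h0, hh⟩ := (hd.isExactOn_ball).with_val_at s0 0
  have hhd : DifferentiableOn ℂ h (Metric.ball s0 r) :=
    fun s hs => (hh s hs).differentiableAt.differentiableWithinAt
  refine ⟨h, h0, hhd, hh, fun s hs => ?_⟩
  have hF : ∀ z ∈ Metric.ball s0 r, HasDerivAt (fun z => f z * Complex.exp (-h z)) 0 z := by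
    intro z hz
    have h1 : HasDerivAt f (deriv f z) z :=
      (hf.differentiableAt (Metric.isOpen_ball.mem_nhds hz)).hasDerivAt
    have h2 : HasDerivAt (fun z => f z * Complex.exp (-h z))
        (deriv f z * Complex.exp (-h z) + f z * (Complex.exp (-h z) * -(deriv f z / f z))) z :=
      h1.mul ((hh z hz).neg.cexp)
    have h3 := hne z hz
    have h4 : f z * (Complex.exp (-h z) * -(deriv f z / f z)) =
        -(deriv f z * Complex.exp (-h z)) := by
      field_simp
    exact h2.congr_deriv (by rw [h4]; ring)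
  have hc : f s * Complex.exp (-h s) = f s0 * Complex.exp (-h s0) :=
    Metric.isOpen_ball.is_const_of_deriv_eq_zero (convex_ball s0 r).isPreconnected
      (fun z hz => (hF z hz).differentiableAt.differentiableWithinAt)
      (fun z hz => (hF z hz).deriv) hs (Metric.mem_ball_self hr)
  rw [h0, neg_zero, Complex.exp_zero, mul_one] at hc
  rw [← hc, mul_assoc, ← Complex.exp_add, neg_add_cancel, Complex.exp_zero, mul_one]

/-- Borel-Carathéodory for the logarithm -/
theorem log_ball_bound (f h : ℂ → ℂ) (s0 : ℂ) (r M : ℝ) (hr : 0 < r) (hM : 0 < M)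
    (h0 : h s0 = 0) (hd : DifferentiableOn ℂ h (Metric.ball s0 r)) (hf0 : f s0 ≠ 0)
    (hfe : ∀ s ∈ Metric.ball s0 r, f s = f s0 * Complex.exp (h s))
    (hb : ∀ s ∈ Metric.ball s0 r, ‖f s‖ ≤ Real.exp M * ‖f s0‖) (s : ℂ)
    (hs : s ∈ Metric.ball s0 r) : ‖h s‖ ≤ 2 * M * ‖s - s0‖ / (r - ‖s - s0‖) := by
  have hmem : ∀ z ∈ Metric.ball (0 : ℂ) r, s0 + z ∈ Metric.ball s0 r := by
    intro z hz
    simpa [Metric.mem_ball, dist_eq_norm] using hz
  have hre : Set.MapsTo (fun z => h (s0 + z)) (Metric.ball 0 r) {z | z.re ≤ M} := by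
    intro z hz
    have h1 := hb _ (hmem z hz)
    rw [hfe _ (hmem z hz), norm_mul, Complex.norm_exp, mul_comm] at h1
    have h2 := le_of_mul_le_mul_right h1 (norm_pos_iff.2 hf0)
    exact Real.exp_le_exp.1 h2
  have hd' : DifferentiableOn ℂ (fun z => h (s0 + z)) (Metric.ball 0 r) := by
    intro z hz
    have h1 : DifferentiableAt ℂ h (s0 + z) :=
      hd.differentiableAt (Metric.isOpen_ball.mem_nhds (hmem z hz))
    exact (h1.comp z (by fun_prop)).differentiableWithinAt
  have hs' : s - s0 ∈ Metric.ball (0 : ℂ) r := by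
    simpa [Metric.mem_ball, dist_eq_norm] using hs
  have := Complex.borelCaratheodory_zero hM hd' hre hr hs' (by simpa using h0)
  simpa using this

theorem hBCA : StBca := by
  intro f s0 r M θ hr hM hθ0 hθ1 hf hne hb s hs
  obtain ⟨h, h0, hd, -, hfe⟩ := exists_log_ball f s0 r hr hf hne
  have hf0 : f s0 ≠ 0 := hne s0 (Metric.mem_ball_self hr)
  have hsr : ‖s - s0‖ < r := lt_of_le_of_lt hs (by nlinarith)
  have hsb : s ∈ Metric.ball s0 r := by simpa [Metric.mem_ball, dist_eq_norm] using hsr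
  have h1 := log_ball_bound f h s0 r M hr hM h0 hd hf0 hfe hb s hsb
  have h2 : 2 * M * ‖s - s0‖ / (r - ‖s - s0‖) ≤ 2 * M * θ / (1 - θ) := by
    rw [div_le_div_iff₀ (by linarith) (by linarith)]
    have : 0 ≤ M * (θ * r - ‖s - s0‖) := mul_nonneg hM.le (by linarith)
    nlinarith
  rw [hfe s hsb, mul_inv, norm_mul, ← Complex.exp_neg, Complex.norm_exp, mul_comm]
  gcongr
  calc (-h s).re ≤ ‖-h s‖ := Complex.re_le_norm _
    _ = ‖h s‖ := norm_neg _
    _ ≤ _ := h1.trans h2

end Pool.Agent.Helper92.GK
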