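import Pool.Agent.Helper23.GK.StB

/-! # Project GK, module ES1: sums of `n^{-it}` over residue classes, `N ≥ exp((log(|t|+3))^{9/10})` -/

set_option autoImplicit false

namespace Pool.Agent.Helper92.GK

open Pool.Agent.Helper23.GK Finset
open Pool.Agent.Helper2.MR (ch)

private lemma triv_ES1 (N N' q u : ℕ) (t : ℝ) (h1 : N ≤ N') (h2 : N' ≤ 2 * N) :
    ‖∑ n ∈ (Ioc N N').filter (fun n => n ≡ u [MOD q]), ch t n‖ ≤ N := by
  have h3 : ∀ n ∈ (Ioc N N').filter (fun n => n ≡ u [MOD q]), ‖ch t n‖ ≤ 1 := by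
    intro n _
    unfold ch
    rw [Complex.norm_exp_ofReal_mul_I]
  refine (norm_sum_le_of_le _ h3).trans ?_
  rw [sum_const, nsmul_eq_mul, mul_one]
  have h4 : ((Ioc N N').filter (fun n => n ≡ u [MOD q])).card ≤ N := by
    refine (card_filter_le _ _).trans ?_
    rw [Nat.card_Ioc]
    omega
  exact_mod_cast h4

/-- the final numerical estimate -/
private lemma num_ES1 (c z w : ℝ) (hc : 0 < c) (hc1 : c ≤ 1 / 5) (hz : 123 / c ≤ z)
    (hw : 2 / 5 * z ^ 9 ≤ w) :
    (w + 1) * Real.exp (-(c / (1 + z ^ 10 / w) ^ 2 * w)) ≤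
      (1 + 26 / c) * Real.exp (-(z ^ 5)) := by
  have hz1 : 615 ≤ z := by
    have : 615 ≤ 123 / c := by
      rw [le_div_iff₀ hc]; linarith
    linarith
  have hz0 : 0 < z := by linarith
  have hz9 : 0 < z ^ 9 := by positivity
  have hw0 : 0 < w := by linarith
  have hcz : 123 ≤ c * z := by
    rw [div_le_iff₀ hc] at hz
    linarith
  -- lam ≤ (5/2) z
  have hlam : z ^ 10 / w ≤ 5 / 2 * z := by
    rw [div_le_iff₀ hw0]
    have : 5 / 2 * z * (2 / 5 * z ^ 9) ≤ 5 / 2 * z * w := by
      apply mul_le_mul_of_nonneg_left hw (by positivity)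
    calc z ^ 10 = 5 / 2 * z * (2 / 5 * z ^ 9) := by ring
      _ ≤ _ := this
  have hlam0 : 0 ≤ z ^ 10 / w := by positivity
  obtain ⟨δ, hδ⟩ : ∃ δ : ℝ, δ = c / (13 * z ^ 2) := ⟨_, rfl⟩
  have hδ0 : 0 < δ := by rw [hδ]; positivity
  have hδle : δ ≤ c / (1 + z ^ 10 / w) ^ 2 := by
    rw [hδ]
    apply div_le_div_of_nonneg_left hc.le (by positivity)
    have h1 : 1 + z ^ 10 / w ≤ 1 + 5 / 2 * z := by linarith
    have h2 : (1 + z ^ 10 / w) ^ 2 ≤ (1 + 5 / 2 * z) ^ 2 :=
      pow_le_pow_left₀ (by positivity) h1 2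
    nlinarith
  have h1 : Real.exp (-(c / (1 + z ^ 10 / w) ^ 2 * w)) ≤ Real.exp (-(δ * w)) := by
    apply Real.exp_le_exp.2
    have := mul_le_mul_of_nonneg_right hδle hw0.le
    linarith
  have h2 : (w + 1) * Real.exp (-(δ * w)) ≤ (1 + 2 / δ) * Real.exp (-(δ * w / 2)) := by
    have e1 : Real.exp (-(δ * w)) = Real.exp (-(δ * w / 2)) * Real.exp (-(δ * w / 2)) := by
      rw [← Real.exp_add]; congr 1; ring
    have e2 : w * Real.exp (-(δ * w / 2)) ≤ 2 / δ := by
      have h3 : δ * w / 2 ≤ Real.exp (δ * w / 2) := by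
        have := Real.add_one_le_exp (δ * w / 2)
        linarith
      rw [Real.exp_neg, ← div_eq_mul_inv, div_le_div_iff₀ (Real.exp_pos _) hδ0]
      nlinarith
    have e3 : Real.exp (-(δ * w / 2)) ≤ 1 := by
      apply Real.exp_le_one_iff.2
      have : 0 ≤ δ * w := by positivity
      linarith
    have e4 : (w + 1) * Real.exp (-(δ * w / 2)) ≤ 1 + 2 / δ := by
      calc (w + 1) * Real.exp (-(δ * w / 2)) =
            w * Real.exp (-(δ * w / 2)) + Real.exp (-(δ * w / 2)) := by ring
        _ ≤ _ := by linarith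
    rw [e1, ← mul_assoc]
    exact mul_le_mul_of_nonneg_right e4 (Real.exp_pos _).le
  have h3 : 1 + 2 / δ ≤ (1 + 26 / c) * Real.exp (z ^ 2) := by
    have e1 : 2 / δ = 26 / c * z ^ 2 := by
      rw [hδ]
      field_simp
      ring
    have e2 : z ^ 2 + 1 ≤ Real.exp (z ^ 2) := Real.add_one_le_exp _
    have e3 : 0 < 26 / c := by positivity
    rw [e1]
    nlinarith
  have h4 : z ^ 2 + z ^ 5 ≤ δ * w / 2 := by
    have e1 : c / (13 * z ^ 2) * (2 / 5 * z ^ 9) / 2 ≤ δ * w / 2 := by
      rw [hδ]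
      have := mul_le_mul_of_nonneg_left hw (show 0 ≤ c / (13 * z ^ 2) by positivity)
      linarith
    have e2 : c / (13 * z ^ 2) * (2 / 5 * z ^ 9) / 2 = (c * z) / 65 * z ^ 6 := by
      field_simp
      ring
    have e3 : z ^ 6 ≤ (c * z) / 65 * z ^ 6 := by
      have : 1 ≤ (c * z) / 65 := by linarith
      nlinarith [pow_pos hz0 6]
    have e4 : z ^ 2 + z ^ 5 ≤ z ^ 6 := by
      have f1 : z ^ 2 ≤ z ^ 5 := pow_le_pow_right₀ (by linarith) (by norm_num)
      have f2 : 2 * z ^ 5 ≤ z * z ^ 5 := by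
        have := pow_pos hz0 5
        nlinarith
      calc z ^ 2 + z ^ 5 ≤ 2 * z ^ 5 := by linarith
        _ ≤ z * z ^ 5 := f2
        _ = z ^ 6 := by ring
    linarith
  calc (w + 1) * Real.exp (-(c / (1 + z ^ 10 / w) ^ 2 * w))
      ≤ (w + 1) * Real.exp (-(δ * w)) := mul_le_mul_of_nonneg_left h1 (by linarith)
    _ ≤ (1 + 2 / δ) * Real.exp (-(δ * w / 2)) := h2
    _ ≤ ((1 + 26 / c) * Real.exp (z ^ 2)) * Real.exp (-(z ^ 2 + z ^ 5)) := by
        apply mul_le_mul h3 _ (Real.exp_pos _).le (by positivity)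
        exact Real.exp_le_exp.2 (by linarith)
    _ = (1 + 26 / c) * Real.exp (-(z ^ 5)) := by
        rw [mul_assoc, ← Real.exp_add]
        congr 2
        ring

theorem hES1 (hV : StVin) (hE : StEms) (hR : StRes) : StEs1 := by
  obtain ⟨C2, c0, hC2, hc0, hc01, hV⟩ := hV
  obtain ⟨C1, hC1, hE⟩ := hE
  obtain ⟨Z, hZ⟩ : ∃ Z : ℝ, Z = 123 / c0 := ⟨_, rfl⟩
  have hZ1 : 615 ≤ Z := by
    rw [hZ, le_div_iff₀ hc0]; linarith
  obtain ⟨K, hK⟩ : ∃ K : ℝ, K = Real.exp (Z ^ 5) := ⟨_, rfl⟩
  have hK0 : 1 ≤ K := by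
    rw [hK]; exact Real.one_le_exp (by positivity)
  obtain ⟨D, hD⟩ : ∃ D : ℝ, D = C2 * (1 + 26 / c0) := ⟨_, rfl⟩
  have hD0 : 0 < D := by rw [hD]; positivity
  refine ⟨K + 4 + C1 + D, by positivity, ?_⟩
  intro N N' q u t hN hN' hq ht hvN
  have ht0 : 0 < |t| := by linarith
  have hT := triv_ES1 N N' q u t hN hN'
  have hN0 : (0 : ℝ) ≤ N := Nat.cast_nonneg N
  have hq1 : (1 : ℝ) ≤ q := by exact_mod_cast hq
  have hti : 0 ≤ 1 / |t| := by positivity
  -- the variable `z`
  have hel1 : 1 ≤ el t := by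
    unfold el
    rw [Real.le_log_iff_exp_le (by linarith)]
    have := Real.exp_one_lt_d9
    linarith
  have hel0 : 0 < el t := by linarith
  obtain ⟨z, hz⟩ : ∃ z : ℝ, z = el t ^ (1 / 10 : ℝ) := ⟨_, rfl⟩
  have hz1 : 1 ≤ z := by rw [hz]; exact Real.one_le_rpow hel1 (by norm_num)
  have hz0 : 0 < z := by linarith
  have hz10 : el t = z ^ 10 := by
    rw [hz, ← Real.rpow_natCast, ← Real.rpow_mul hel0.le]
    norm_num
  have hz9 : vv t = z ^ 9 := by
    unfold vv
    rw [hz, ← Real.rpow_natCast, ← Real.rpow_mul hel0.le]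
    norm_num
  have hz5 : (el t) ^ (1 / 2 : ℝ) = z ^ 5 := by
    rw [hz, ← Real.rpow_natCast (_ ^ _) 5, ← Real.rpow_mul hel0.le]
    norm_num
  rw [hz9] at hvN
  rw [hz5]
  obtain ⟨P, hP⟩ : ∃ P : ℝ, P = Real.exp (-(z ^ 5)) := ⟨_, rfl⟩
  have hP0 : 0 < P := by rw [hP]; exact Real.exp_pos _
  have hP1 : Real.exp (z ^ 5) * P = 1 := by rw [hP, ← Real.exp_add, add_neg_cancel, Real.exp_zero]
  rw [← hP]
  -- general form of the trivial bound
  have htriv : ∀ B : ℝ, 0 ≤ B → B ≤ K → 1 ≤ B * (q * P) →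
      (N : ℝ) ≤ (K + 4 + C1 + D) * q * N * (1 / |t| + P) := by
    intro B hB0 hB hBq
    have a1 : (N : ℝ) ≤ N * (B * (q * P)) := le_mul_of_one_le_right hN0 hBq
    have h0 : 0 ≤ (N : ℝ) * (q * P) := by positivity
    have a2 : (N : ℝ) * (B * (q * P)) ≤ (K + 4 + C1 + D) * (N * (q * P)) := by
      calc (N : ℝ) * (B * (q * P)) = B * (N * (q * P)) := by ring
        _ ≤ _ := mul_le_mul_of_nonneg_right (by linarith) h0
    have a3 : 0 ≤ (K + 4 + C1 + D) * q * N * (1 / |t|) := by positivity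
    calc (N : ℝ) ≤ (K + 4 + C1 + D) * (N * (q * P)) := a1.trans a2
      _ ≤ (K + 4 + C1 + D) * q * N * (1 / |t|) + (K + 4 + C1 + D) * (N * (q * P)) := by linarith
      _ = _ := by ring
  rcases le_total z Z with hzs | hzl
  · -- small `z`
    refine hT.trans (htriv K (by linarith) le_rfl ?_)
    have a1 : Real.exp (z ^ 5) ≤ K := by
      rw [hK]
      exact Real.exp_le_exp.2 (pow_le_pow_left₀ hz0.le hzs 5)
    have a2 : 1 ≤ K * P := by
      rw [← hP1]
      exact mul_le_mul_of_nonneg_right a1 hP0.le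
    have a3 : 0 ≤ (q - 1) * (K * P) := mul_nonneg (by linarith) (by positivity)
    nlinarith
  · have hz615 : 615 ≤ z := by linarith
    have hz9' : z ^ 5 * 20 ≤ z ^ 9 := by
      have f1 : (20 : ℝ) ≤ z ^ 4 := by
        calc (20 : ℝ) ≤ z := by linarith
          _ = z ^ 1 := (pow_one z).symm
          _ ≤ z ^ 4 := pow_le_pow_right₀ (by linarith) (by norm_num)
      have := mul_le_mul_of_nonneg_left f1 (pow_pos hz0 5).le
      calc z ^ 5 * 20 ≤ z ^ 5 * z ^ 4 := this
        _ = z ^ 9 := by ring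
    have hz5one : 1 ≤ z ^ 5 := one_le_pow₀ hz1
    have hNpos : 0 < (N : ℝ) := lt_of_lt_of_le (Real.exp_pos _) hvN
    rcases lt_or_ge N (q * q) with hA | hB
    · -- large `q`
      refine hT.trans (htriv 1 (by norm_num) hK0 ?_)
      have hA' : (N : ℝ) < (q : ℝ) * q := by exact_mod_cast hA
      have h1 : Real.exp (z ^ 5) ≤ q := by
        by_contra hcon
        push Not at hcon
        have h2 : (q : ℝ) * q ≤ Real.exp (z ^ 5) * Real.exp (z ^ 5) := by nlinarith
        rw [← Real.exp_add] at h2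
        have h3 : Real.exp (z ^ 5 + z ^ 5) ≤ Real.exp (z ^ 9) := Real.exp_le_exp.2 (by linarith)
        linarith
      rw [one_mul, ← hP1]
      exact mul_le_mul_of_nonneg_right h1 hP0.le
    · obtain ⟨m0, m1, θ, hθ0, hθ1, hm, hm', hmN, hNm, hb⟩ := hR N N' q u t hN hN' hq
      have hm0N : (m0 : ℝ) ≤ N := by
        have : m0 ≤ N := (Nat.le_mul_of_pos_left m0 hq).trans hmN
        exact_mod_cast this
      -- lower bound for `m0`
      have hm0e : Real.exp (2 / 5 * z ^ 9) ≤ m0 := by
        have b1 : (N : ℝ) ≤ 2 * q * (m0 + 1) := by exact_mod_cast hNm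
        have b2 : (q : ℝ) * q ≤ N := by exact_mod_cast hB
        have b3 : (N : ℝ) * N ≤ N * (2 * (m0 + 1)) ^ 2 := by
          have c1 : (N : ℝ) * N ≤ (2 * q * (m0 + 1)) * (2 * q * (m0 + 1)) :=
            mul_le_mul b1 b1 hN0 (by positivity)
          have c2 : (2 * (q : ℝ) * (m0 + 1)) * (2 * q * (m0 + 1)) =
              (q * q) * (2 * (m0 + 1)) ^ 2 := by ring
          rw [c2] at c1
          exact c1.trans (mul_le_mul_of_nonneg_right b2 (by positivity))
        have b4 : (N : ℝ) ≤ (2 * (m0 + 1)) ^ 2 := le_of_mul_le_mul_left b3 hNpos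
        have b5 : Real.exp (1 / 2 * z ^ 9) ^ 2 ≤ (2 * ((m0 : ℝ) + 1)) ^ 2 := by
          calc Real.exp (1 / 2 * z ^ 9) ^ 2 = Real.exp (z ^ 9) := by
                rw [sq, ← Real.exp_add]; congr 1; ring
            _ ≤ _ := hvN.trans b4
        have b6 : Real.exp (1 / 2 * z ^ 9) ≤ 2 * ((m0 : ℝ) + 1) :=
          le_of_sq_le_sq b5 (by positivity)
        have b7 : Real.exp (1 / 2 * z ^ 9) =
            Real.exp (1 / 10 * z ^ 9) * Real.exp (2 / 5 * z ^ 9) := by
          rw [← Real.exp_add]; congr 1; ring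
        have b8 : 4 ≤ Real.exp (1 / 10 * z ^ 9) := by
          have := Real.add_one_le_exp (1 / 10 * z ^ 9)
          have : 3 ≤ 1 / 10 * z ^ 9 := by
            have f2 : 615 ≤ z ^ 5 := by
              calc (615 : ℝ) ≤ z := hz615
                _ = z ^ 1 := (pow_one z).symm
                _ ≤ z ^ 5 := pow_le_pow_right₀ (by linarith) (by norm_num)
            linarith
          linarith
        have b9 : 1 ≤ Real.exp (2 / 5 * z ^ 9) := Real.one_le_exp (by positivity)
        rw [b7] at b6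
        nlinarith
      have hm0pos : 0 < (m0 : ℝ) := lt_of_lt_of_le (Real.exp_pos _) hm0e
      have hm02 : 2 ≤ m0 := by
        have h1 := Real.add_one_le_exp (2 / 5 * z ^ 9)
        have : (2 : ℝ) ≤ m0 := by
          have : 1 ≤ 2 / 5 * z ^ 9 := by linarith
          linarith
        exact_mod_cast this
      have hm02' : (2 : ℝ) ≤ m0 := by exact_mod_cast hm02
      have hlm : 2 / 5 * z ^ 9 ≤ Real.log m0 := (Real.le_log_iff_exp_le hm0pos).2 hm0e
      have hlm0 : 0 < Real.log m0 := lt_of_lt_of_le (by positivity) hlm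
      -- the error `4`
      have hfour : (4 : ℝ) ≤ 4 * (N * P) := by
        have h1 : Real.exp (z ^ 5) ≤ N := (Real.exp_le_exp.2 (by linarith)).trans hvN
        have h2 : 1 ≤ N * P := by
          rw [← hP1]
          exact mul_le_mul_of_nonneg_right h1 hP0.le
        linarith
      have hfin : ‖∑ m ∈ Ioc m0 m1, cs t θ m‖ ≤ C1 * (N / |t| + N * P) + D * (N * P) := by
        rcases lt_or_ge |t| ((m0 : ℝ) ^ (1 / 2 : ℝ)) with hlt | hge
        · have h1 := hE m0 m1 t θ (by omega) hm hm' hθ0 hθ1 ht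
          have h2 : (m0 : ℝ) ^ (1 / 2 : ℝ) ≤ N * P := by
            have e1 : (m0 : ℝ) ^ (1 / 2 : ℝ) = m0 * Real.exp (-(Real.log m0 / 2)) := by
              rw [Real.rpow_def_of_pos hm0pos]
              conv_rhs => rw [← Real.exp_log hm0pos]
              rw [← Real.exp_add, Real.log_exp]
              congr 1
              ring
            rw [e1]
            apply mul_le_mul hm0N _ (Real.exp_pos _).le hN0
            rw [hP]
            apply Real.exp_le_exp.2
            linarith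
          have h3 : (m0 : ℝ) / |t| ≤ N / |t| := div_le_div_of_nonneg_right hm0N ht0.le
          have h4 : 0 ≤ D * (N * P) := by positivity
          have h5 : C1 * ((m0 : ℝ) / |t| + |t|) ≤ C1 * (N / |t| + N * P) :=
            mul_le_mul_of_nonneg_left (by linarith) hC1.le
          linarith
        · have h1 := hV m0 m1 t θ hm02 hm hm' hθ0 hθ1 hge
          have hlt0 : 0 ≤ Real.log |t| := Real.log_nonneg ht
          have hlt : Real.log |t| ≤ z ^ 10 := by
            rw [← hz10]
            unfold el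
            exact Real.log_le_log ht0 (by linarith)
          have hlam : Real.log |t| / Real.log m0 ≤ z ^ 10 / Real.log m0 :=
            div_le_div_of_nonneg_right hlt hlm0.le
          have hlam0 : 0 ≤ Real.log |t| / Real.log m0 := by positivity
          have h2 : c0 / (1 + z ^ 10 / Real.log m0) ^ 2 ≤
              c0 / (1 + Real.log |t| / Real.log m0) ^ 2 := by
            apply div_le_div_of_nonneg_left hc0.le (by positivity)
            exact pow_le_pow_left₀ (by positivity) (by linarith) 2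
          have h3 : (m0 : ℝ) ^ (1 - c0 / (1 + Real.log |t| / Real.log m0) ^ 2) ≤
              m0 * Real.exp (-(c0 / (1 + z ^ 10 / Real.log m0) ^ 2 * Real.log m0)) := by
            have e1 : (m0 : ℝ) ^ (1 - c0 / (1 + Real.log |t| / Real.log m0) ^ 2) ≤
                (m0 : ℝ) ^ (1 - c0 / (1 + z ^ 10 / Real.log m0) ^ 2) :=
              Real.rpow_le_rpow_of_exponent_le (by linarith) (by linarith)
            refine e1.trans (le_of_eq ?_)
            rw [Real.rpow_def_of_pos hm0pos]
            conv_rhs => rw [← Real.exp_log hm0pos]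
            rw [← Real.exp_add, Real.log_exp]
            congr 1
            ring
          have h4 : Real.log ((m0 : ℝ) + 1) ≤ Real.log m0 + 1 := by
            have e1 : Real.log ((m0 : ℝ) + 1) ≤ Real.log (2 * m0) :=
              Real.log_le_log (by positivity) (by linarith)
            rw [Real.log_mul (by norm_num) hm0pos.ne'] at e1
            have e2 : Real.log 2 ≤ 1 := by
              have := Real.log_two_lt_d9
              linarith
            linarith
          have h5 := num_ES1 c0 z (Real.log m0) hc0 hc01 (by rw [← hZ]; exact hzl) hlm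
          rw [← hP] at h5
          have hexp0 : 0 ≤ (m0 : ℝ) *
              Real.exp (-(c0 / (1 + z ^ 10 / Real.log m0) ^ 2 * Real.log m0)) := by positivity
          have h6 : Real.log ((m0 : ℝ) + 1) *
              (m0 : ℝ) ^ (1 - c0 / (1 + Real.log |t| / Real.log m0) ^ 2) ≤
              (1 + 26 / c0) * (N * P) := by
            calc Real.log ((m0 : ℝ) + 1) *
                (m0 : ℝ) ^ (1 - c0 / (1 + Real.log |t| / Real.log m0) ^ 2)
                ≤ (Real.log m0 + 1) * (m0 *
                  Real.exp (-(c0 / (1 + z ^ 10 / Real.log m0) ^ 2 * Real.log m0))) :=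
                  mul_le_mul h4 h3 (Real.rpow_nonneg hm0pos.le _) (by linarith)
              _ = m0 * ((Real.log m0 + 1) *
                  Real.exp (-(c0 / (1 + z ^ 10 / Real.log m0) ^ 2 * Real.log m0))) := by ring
              _ ≤ N * ((1 + 26 / c0) * P) := by
                  apply mul_le_mul hm0N h5 _ hN0
                  have : 0 ≤ Real.log (m0 : ℝ) + 1 := by linarith
                  positivity
              _ = _ := by ring
          have h7 : C2 * Real.log ((m0 : ℝ) + 1) *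
              (m0 : ℝ) ^ (1 - c0 / (1 + Real.log |t| / Real.log m0) ^ 2) ≤ D * (N * P) := by
            rw [mul_assoc, hD, mul_assoc]
            exact mul_le_mul_of_nonneg_left h6 hC2.le
          have h8 : 0 ≤ C1 * ((N : ℝ) / |t| + N * P) := by positivity
          linarith
      refine hb.trans ?_
      have hG : 0 ≤ (N : ℝ) * (1 / |t| + P) := by positivity
      have h1 : C1 * ((N : ℝ) / |t| + N * P) = C1 * (N * (1 / |t| + P)) := by ring
      have h2 : (N : ℝ) * P ≤ N * (1 / |t| + P) := mul_le_mul_of_nonneg_left (by linarith) hN0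
      have h3 : D * ((N : ℝ) * P) ≤ D * (N * (1 / |t| + P)) :=
        mul_le_mul_of_nonneg_left h2 hD0.le
      have h4 : (K + 4 + C1 + D) * (N * (1 / |t| + P)) ≤
          (K + 4 + C1 + D) * q * N * (1 / |t| + P) := by
        have e : (K + 4 + C1 + D) * q * N * (1 / |t| + P) =
          (K + 4 + C1 + D) * (N * (1 / |t| + P)) * q := by ring
        rw [e]
        exact le_mul_of_one_le_right (by positivity) hq1
      rw [h1] at hfin
      obtain ⟨G, hGd⟩ : ∃ G : ℝ, G = (N : ℝ) * (1 / |t| + P) := ⟨_, rfl⟩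
      rw [← hGd] at hG h2 h3 h4 hfin
      refine le_trans ?_ h4
      have e : (K + 4 + C1 + D) * G = K * G + 4 * G + C1 * G + D * G := by ring
      have e2 : 0 ≤ K * G := by positivity
      rw [e]
      linarith

end Pool.Agent.Helper92.GK
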