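import Pool.Agent.Helper23.GK.StB

/-!
# Project GK: module HOL (double Hölder inequality for Vinogradov's method)
-/

set_option autoImplicit false

namespace Pool.Agent.Helper92.GK

open Pool.Agent.Helper23.GK
open Finset
open Pool.Agent.Helper48.BK (ex)

private lemma ex_add (s t : ℝ) : ex (s + t) = ex s * ex t := by
  unfold ex
  rw [← Complex.exp_add]
  congr 1
  push_cast
  ring

private lemma ex_conj (t : ℝ) : (starRingEnd ℂ) (ex t) = ex (-t) := by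
  unfold ex
  rw [← Complex.exp_conj]
  congr 1
  simp only [map_mul, Complex.conj_ofReal, Complex.conj_I, map_ofNat]
  push_cast
  ring

private lemma ex_zero : ex 0 = 1 := by
  unfold ex
  simp

private lemma ex_norm (t : ℝ) : ‖ex t‖ = 1 := by
  unfold ex
  rw [Complex.norm_exp]
  simp

private lemma ex_sum {ι : Type*} (S : Finset ι) (f : ι → ℝ) :
    ex (∑ i ∈ S, f i) = ∏ i ∈ S, ex (f i) := by
  classical
  induction S using Finset.induction_on with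
  | empty => simp [ex_zero]
  | insert a S ha ih => rw [Finset.sum_insert ha, Finset.prod_insert ha, ex_add, ih]

/-- pairs of tuples -/
private noncomputable def PP (s M : ℕ) : Finset ((Fin s → ℕ) × (Fin s → ℕ)) :=
  (Fintype.piFinset (fun _ : Fin s => Icc 1 M)) ×ˢ (Fintype.piFinset (fun _ : Fin s => Icc 1 M))

private lemma normpow (s M : ℕ) (g : ℕ → ℝ) :
    ((‖∑ y ∈ Icc 1 M, ex (g y)‖ ^ (2 * s) : ℝ) : ℂ) =
      ∑ z ∈ PP s M, ex (∑ i, g (z.1 i) - ∑ i, g (z.2 i)) := by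
  classical
  set F : ℂ := ∑ y ∈ Icc 1 M, ex (g y) with hF
  have h1 : ((‖F‖ ^ (2 * s) : ℝ) : ℂ) = F ^ s * ((starRingEnd ℂ) F) ^ s := by
    rw [← mul_pow, Complex.mul_conj, pow_mul]
    push_cast
    rw [Complex.normSq_eq_norm_sq]
    push_cast
    rfl
  have h2 : F ^ s = ∑ p ∈ Fintype.piFinset (fun _ : Fin s => Icc 1 M), ex (∑ i, g (p i)) := by
    have := Finset.prod_univ_sum (fun _ : Fin s => Icc 1 M) (fun _ y => ex (g y))
    rw [Finset.prod_const, Finset.card_univ, Fintype.card_fin] at this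
    rw [hF, this]
    exact Finset.sum_congr rfl fun p _ => (ex_sum _ _).symm
  have h3 : ((starRingEnd ℂ) F) ^ s =
      ∑ p ∈ Fintype.piFinset (fun _ : Fin s => Icc 1 M), ex (-∑ i, g (p i)) := by
    rw [← map_pow, h2, map_sum]
    exact Finset.sum_congr rfl fun p _ => ex_conj _
  rw [h1, h2, h3, Finset.sum_mul_sum, PP, Finset.sum_product]
  refine Finset.sum_congr rfl fun p _ => Finset.sum_congr rfl fun q _ => ?_
  rw [← ex_add, sub_eq_add_neg]

/-- the vector of differences of power sums -/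
private def VV {k s : ℕ} (z : (Fin s → ℕ) × (Fin s → ℕ)) (j : Fin k) : ℤ :=
  ∑ i, (z.1 i : ℤ) ^ (j.1 + 1) - ∑ i, (z.2 i : ℤ) ^ (j.1 + 1)

/-- the box of vectors -/
private noncomputable def BB (k s M : ℕ) : Finset (Fin k → ℤ) :=
  Fintype.piFinset (fun j : Fin k =>
    Icc (-((s * M ^ (j.1 + 1) : ℕ) : ℤ)) ((s * M ^ (j.1 + 1) : ℕ) : ℤ))

private lemma VV_mem {k s M : ℕ} (z : (Fin s → ℕ) × (Fin s → ℕ)) (hz : z ∈ PP s M) :
    (VV z : Fin k → ℤ) ∈ BB k s M := by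
  rw [PP, Finset.mem_product, Fintype.mem_piFinset, Fintype.mem_piFinset] at hz
  rw [BB, Fintype.mem_piFinset]
  intro j
  have hb : ∀ w : Fin s → ℕ, (∀ i, w i ∈ Icc 1 M) →
      0 ≤ ∑ i, (w i : ℤ) ^ (j.1 + 1) ∧ ∑ i, (w i : ℤ) ^ (j.1 + 1) ≤ ((s * M ^ (j.1 + 1) : ℕ) : ℤ) := by
    intro w hw
    constructor
    · positivity
    · calc ∑ i, (w i : ℤ) ^ (j.1 + 1) ≤ ∑ _i : Fin s, (M : ℤ) ^ (j.1 + 1) := by
            apply Finset.sum_le_sum
            intro i _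
            have := (Finset.mem_Icc.1 (hw i)).2
            exact pow_le_pow_left₀ (by positivity) (by exact_mod_cast this) _
        _ = _ := by simp
  obtain ⟨h1, h2⟩ := hb z.1 hz.1
  obtain ⟨h3, h4⟩ := hb z.2 hz.2
  rw [Finset.mem_Icc]
  unfold VV
  constructor <;> linarith

private lemma card_PP (s M : ℕ) : (PP s M).card = M ^ (2 * s) := by
  rw [PP, Finset.card_product, Fintype.card_piFinset_const]
  simp
  ring

/-- number of pairs with given differences of power sums -/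
private lemma fiber_le (hS : StShf) (k s M : ℕ) (v : Fin k → ℤ) :
    ((PP s M).filter (fun z => (VV z : Fin k → ℤ) = v)).card ≤ JJ k s M := by
  classical
  set h : ℕ → ℤ := fun j => if hj : j - 1 < k then v ⟨j - 1, hj⟩ else 0 with hh
  have h1 := hS k s M M 1 h le_rfl
  refine le_trans ?_ h1
  rw [← Set.ncard_coe_finset]
  have hfin : Set.Finite {z : (Fin s → ℤ) × (Fin s → ℤ) | (∀ i, 1 ≤ z.1 i ∧ z.1 i < 1 + (M : ℤ)) ∧
      (∀ i, 1 ≤ z.2 i ∧ z.2 i < 1 + (M : ℤ)) ∧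
      ∀ j ∈ Icc 1 k, ∑ i, z.1 i ^ j - ∑ i, z.2 i ^ j = h j} := by
    apply Set.Finite.subset (((Fintype.piFinset (fun _ : Fin s => Icc (1 : ℤ) M)) ×ˢ
      (Fintype.piFinset (fun _ : Fin s => Icc (1 : ℤ) M)) :
      Finset ((Fin s → ℤ) × (Fin s → ℤ))).finite_toSet)
    rintro z ⟨hz1, hz2, -⟩
    rw [Finset.mem_coe, Finset.mem_product, Fintype.mem_piFinset, Fintype.mem_piFinset]
    refine ⟨fun i => ?_, fun i => ?_⟩
    · rw [Finset.mem_Icc]; have := hz1 i; constructor <;> omega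
    · rw [Finset.mem_Icc]; have := hz2 i; constructor <;> omega
  refine Set.ncard_le_ncard_of_injOn
    (fun z => ((fun i => (z.1 i : ℤ)), (fun i => (z.2 i : ℤ)))) ?_ ?_ hfin
  · intro z hz
    rw [Finset.mem_coe, Finset.mem_filter, PP, Finset.mem_product, Fintype.mem_piFinset,
      Fintype.mem_piFinset] at hz
    obtain ⟨⟨hz1, hz2⟩, hzv⟩ := hz
    refine ⟨fun i => ?_, fun i => ?_, fun j hj => ?_⟩
    · have := Finset.mem_Icc.1 (hz1 i); constructor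
      · show (1 : ℤ) ≤ (z.1 i : ℤ); omega
      · show (z.1 i : ℤ) < 1 + (M : ℤ); omega
    · have := Finset.mem_Icc.1 (hz2 i); constructor
      · show (1 : ℤ) ≤ (z.2 i : ℤ); omega
      · show (z.2 i : ℤ) < 1 + (M : ℤ); omega
    · rw [Finset.mem_Icc] at hj
      have hjk : j - 1 < k := by omega
      have h2 := congrFun hzv ⟨j - 1, hjk⟩
      rw [hh]
      simp only [hjk, dite_true]
      rw [← h2]
      unfold VV
      have : j - 1 + 1 = j := by omega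
      simp only [this]
  · intro z _ w _ hzw
    simp only [Prod.mk.injEq] at hzw
    obtain ⟨h1, h2⟩ := hzw
    ext i
    · have := congrFun h1 i; exact_mod_cast this
    · have := congrFun h2 i; exact_mod_cast this

/-- sum over `z` of a nonnegative function of the vector -/
private lemma sum_fiber (hS : StShf) (k s M : ℕ) (f : (Fin k → ℤ) → ℝ) (hf : ∀ v, 0 ≤ f v) :
    ∑ z ∈ PP s M, f (VV z) ≤ (JJ k s M : ℝ) * ∑ v ∈ BB k s M, f v := by
  classical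
  rw [← Finset.sum_fiberwise_of_maps_to (g := fun z => (VV z : Fin k → ℤ)) (t := BB k s M)
    (fun z hz => VV_mem z hz), Finset.mul_sum]
  apply Finset.sum_le_sum
  intro v _
  rw [Finset.sum_congr rfl (g := fun _ => f v)
    (fun z hz => by rw [(Finset.mem_filter.1 hz).2]), Finset.sum_const, nsmul_eq_mul]
  apply mul_le_mul_of_nonneg_right _ (hf v)
  exact_mod_cast fiber_le hS k s M v

private lemma sum_fiber_pow (hS : StShf) (k s M : ℕ) (f : (Fin k → ℤ) → ℝ) (hf : ∀ v, 0 ≤ f v) :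
    (∑ z ∈ PP s M, f (VV z)) ^ 2 ≤
      ((JJ k s M : ℝ) * (M : ℝ) ^ (2 * s)) * ∑ v ∈ BB k s M, f v ^ 2 := by
  classical
  set R : (Fin k → ℤ) → ℝ := fun v => ((PP s M).filter (fun z => (VV z : Fin k → ℤ) = v)).card
    with hR
  have h1 : ∑ z ∈ PP s M, f (VV z) = ∑ v ∈ BB k s M, R v * f v := by
    rw [← Finset.sum_fiberwise_of_maps_to (g := fun z => (VV z : Fin k → ℤ)) (t := BB k s M)
      (fun z hz => VV_mem z hz)]
    refine Finset.sum_congr rfl fun v _ => ?_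
    rw [Finset.sum_congr rfl (g := fun _ => f v)
      (fun z hz => by rw [(Finset.mem_filter.1 hz).2]), Finset.sum_const, nsmul_eq_mul]
  have h2 : ∑ v ∈ BB k s M, R v ^ 2 ≤ (JJ k s M : ℝ) * (M : ℝ) ^ (2 * s) := by
    have h3 : ∑ v ∈ BB k s M, R v = (M : ℝ) ^ (2 * s) := by
      have h4 := Finset.card_eq_sum_card_fiberwise (f := fun z => (VV z : Fin k → ℤ))
        (s := PP s M) (t := BB k s M) (fun z hz => VV_mem z (Finset.mem_coe.1 hz))
      rw [card_PP] at h4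
      have h5 : ((M ^ (2 * s) : ℕ) : ℝ) = ∑ v ∈ BB k s M,
          (((PP s M).filter (fun z => (VV z : Fin k → ℤ) = v)).card : ℝ) := by
        rw [h4]
        push_cast
        rfl
      rw [← Nat.cast_pow, h5]
    rw [← h3, Finset.mul_sum]
    apply Finset.sum_le_sum
    intro v _
    rw [sq]
    apply mul_le_mul_of_nonneg_right _ (Nat.cast_nonneg _)
    exact Nat.cast_le.2 (fiber_le hS k s M v)
  rw [h1]
  refine (Finset.sum_mul_sq_le_sq_mul_sq _ _ _).trans ?_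
  exact mul_le_mul_of_nonneg_right h2 (Finset.sum_nonneg fun v _ => sq_nonneg _)

private lemma sum_Icc_fin (k : ℕ) (f : ℕ → ℝ) : ∑ j ∈ Icc 1 k, f j = ∑ j : Fin k, f (j.1 + 1) := by
  rw [Fin.sum_univ_eq_sum_range (fun j => f (j + 1)) k, Finset.range_eq_Ico,
    Finset.sum_Ico_add' f 0 k 1]
  rfl

private lemma prod_Icc_fin (k : ℕ) (f : ℕ → ℝ) :
    ∏ j ∈ Icc 1 k, f j = ∏ j : Fin k, f (j.1 + 1) := by
  rw [Fin.prod_univ_eq_prod_range (fun j => f (j + 1)) k, Finset.range_eq_Ico,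
    Finset.prod_Ico_add' f 0 k 1]
  rfl

/-- the sum over `x` with a vector `v` -/
private noncomputable def TT (k M : ℕ) (a : ℕ → ℝ) (v : Fin k → ℤ) : ℂ :=
  ∑ x ∈ Icc 1 M, ex (∑ j : Fin k, a (j.1 + 1) * (v j : ℝ) * (x : ℝ) ^ (j.1 + 1))

private lemma phase (k s : ℕ) (c : Fin k → ℝ) (z : (Fin s → ℕ) × (Fin s → ℕ)) :
    ∑ i, (∑ j : Fin k, c j * (z.1 i : ℝ) ^ (j.1 + 1)) -
      ∑ i, (∑ j : Fin k, c j * (z.2 i : ℝ) ^ (j.1 + 1)) =
      ∑ j : Fin k, c j * ((VV z j : ℤ) : ℝ) := by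
  rw [Finset.sum_comm, Finset.sum_comm (s := (Finset.univ : Finset (Fin s))), ← Finset.sum_sub_distrib]
  refine Finset.sum_congr rfl fun j _ => ?_
  rw [← Finset.mul_sum, ← Finset.mul_sum, ← mul_sub]
  unfold VV
  push_cast
  rfl

theorem hHOL (hS : StShf) : StHol := by
  classical
  intro k s M a hs
  set S : ℂ := ∑ x ∈ Icc 1 M, ∑ y ∈ Icc 1 M, ex (∑ j ∈ Icc 1 k, a j * ((x : ℝ) ^ j * (y : ℝ) ^ j))
    with hSd
  set J : ℝ := (JJ k s M : ℝ) with hJd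
  have hJ0 : 0 ≤ J := Nat.cast_nonneg _
  obtain ⟨t, ht⟩ : ∃ t, 2 * s = t + 1 := ⟨2 * s - 1, by omega⟩
  obtain ⟨t', ht'⟩ : ∃ t', s = t' + 1 := ⟨s - 1, by omega⟩
  -- Hölder in `x`
  set G : ℕ → ℂ := fun x => ∑ y ∈ Icc 1 M, ex (∑ j ∈ Icc 1 k, a j * ((x : ℝ) ^ j * (y : ℝ) ^ j))
    with hG
  have hGeq : ∀ x : ℕ, ((‖G x‖ ^ (2 * s) : ℝ) : ℂ) =
      ∑ z ∈ PP s M, ex (∑ j : Fin k, a (j.1 + 1) * ((VV z j : ℤ) : ℝ) * (x : ℝ) ^ (j.1 + 1)) := by
    intro x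
    have h1 : G x = ∑ y ∈ Icc 1 M,
        ex ((fun y : ℕ => ∑ j : Fin k, (a (j.1 + 1) * (x : ℝ) ^ (j.1 + 1)) * (y : ℝ) ^ (j.1 + 1)) y) := by
      rw [hG]
      refine Finset.sum_congr rfl fun y _ => ?_
      rw [sum_Icc_fin]
      congr 1
      refine Finset.sum_congr rfl fun j _ => ?_
      ring
    rw [h1, normpow s M]
    refine Finset.sum_congr rfl fun z _ => ?_
    rw [phase k s (fun j => a (j.1 + 1) * (x : ℝ) ^ (j.1 + 1)) z]
    congr 1
    refine Finset.sum_congr rfl fun j _ => ?_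
    ring
  set Q : ℝ := ∑ z ∈ PP s M, ‖TT k M a (VV z)‖ with hQ
  have hQ0 : 0 ≤ Q := Finset.sum_nonneg fun _ _ => norm_nonneg _
  have hsumG : ∑ x ∈ Icc 1 M, ‖G x‖ ^ (2 * s) ≤ Q := by
    have h1 : ((∑ x ∈ Icc 1 M, ‖G x‖ ^ (2 * s) : ℝ) : ℂ) = ∑ z ∈ PP s M, TT k M a (VV z) := by
      push_cast
      have h2 : ∀ x ∈ Icc 1 M, ((‖G x‖ : ℂ)) ^ (2 * s) = ∑ z ∈ PP s M,
          ex (∑ j : Fin k, a (j.1 + 1) * ((VV z j : ℤ) : ℝ) * (x : ℝ) ^ (j.1 + 1)) := by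
        intro x _
        rw [← hGeq x]
        push_cast
        rfl
      rw [Finset.sum_congr rfl h2, Finset.sum_comm]
      rfl
    have h3 : (∑ x ∈ Icc 1 M, ‖G x‖ ^ (2 * s)) = ‖((∑ x ∈ Icc 1 M, ‖G x‖ ^ (2 * s) : ℝ) : ℂ)‖ := by
      rw [Complex.norm_real, Real.norm_eq_abs, abs_of_nonneg]
      exact Finset.sum_nonneg fun _ _ => by positivity
    rw [h3, h1]
    exact norm_sum_le _ _
  have hM0 : (0 : ℝ) ≤ (M : ℝ) := Nat.cast_nonneg _
  have hstep1 : ‖S‖ ^ (2 * s) ≤ (M : ℝ) ^ t * Q := by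
    have h1 : ‖S‖ ≤ ∑ x ∈ Icc 1 M, ‖G x‖ := by
      rw [hSd]
      exact norm_sum_le _ _
    calc ‖S‖ ^ (2 * s) ≤ (∑ x ∈ Icc 1 M, ‖G x‖) ^ (2 * s) :=
          pow_le_pow_left₀ (norm_nonneg _) h1 _
      _ = (∑ x ∈ Icc 1 M, ‖G x‖) ^ (t + 1) := by rw [ht]
      _ ≤ ((Icc 1 M).card : ℝ) ^ t * ∑ x ∈ Icc 1 M, ‖G x‖ ^ (t + 1) :=
          pow_sum_le_card_mul_sum_pow (fun _ _ => norm_nonneg _) t
      _ = (M : ℝ) ^ t * ∑ x ∈ Icc 1 M, ‖G x‖ ^ (2 * s) := by rw [Nat.card_Icc, ht]; simp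
      _ ≤ _ := mul_le_mul_of_nonneg_left hsumG (by positivity)
  -- second Hölder
  set E : ℝ := ∑ v ∈ BB k s M, (‖TT k M a v‖ ^ s) ^ 2 with hE
  have hE0 : 0 ≤ E := Finset.sum_nonneg fun _ _ => sq_nonneg _
  have hstep2 : Q ^ (2 * s) ≤ ((M : ℝ) ^ (2 * s)) ^ (2 * t') * ((J * (M : ℝ) ^ (2 * s)) * E) := by
    have h1 : Q ^ s ≤ ((M : ℝ) ^ (2 * s)) ^ t' * ∑ z ∈ PP s M, ‖TT k M a (VV z)‖ ^ s := by
      calc Q ^ s = Q ^ (t' + 1) := by rw [← ht']
        _ ≤ ((PP s M).card : ℝ) ^ t' * ∑ z ∈ PP s M, ‖TT k M a (VV z)‖ ^ (t' + 1) :=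
            pow_sum_le_card_mul_sum_pow (fun _ _ => norm_nonneg _) t'
        _ = _ := by rw [card_PP, ← ht']; push_cast; rfl
    have h2 := sum_fiber_pow hS k s M (fun v => ‖TT k M a v‖ ^ s) (fun v => by positivity)
    calc Q ^ (2 * s) = (Q ^ s) ^ 2 := by rw [← pow_mul]; congr 1; ring
      _ ≤ (((M : ℝ) ^ (2 * s)) ^ t' * ∑ z ∈ PP s M, ‖TT k M a (VV z)‖ ^ s) ^ 2 :=
          pow_le_pow_left₀ (by positivity) h1 2
      _ = ((M : ℝ) ^ (2 * s)) ^ (2 * t') * (∑ z ∈ PP s M, ‖TT k M a (VV z)‖ ^ s) ^ 2 := by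
          rw [mul_pow, ← pow_mul, mul_comm t' 2]
      _ ≤ _ := mul_le_mul_of_nonneg_left h2 (by positivity)
  -- the sum over the box
  have hEle : E ≤ J * ∏ j ∈ Icc 1 k, WU (a j) (s * M ^ j) := by
    have hTeq : ∀ v : Fin k → ℤ, ((‖TT k M a v‖ ^ (2 * s) : ℝ) : ℂ) =
        ∑ z ∈ PP s M, ex (∑ j : Fin k, a (j.1 + 1) * (v j : ℝ) * ((VV z j : ℤ) : ℝ)) := by
      intro v
      have h1 : TT k M a v = ∑ x ∈ Icc 1 M,
          ex ((fun x : ℕ => ∑ j : Fin k, (a (j.1 + 1) * (v j : ℝ)) * (x : ℝ) ^ (j.1 + 1)) x) := rfl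
      rw [h1, normpow s M]
      refine Finset.sum_congr rfl fun z _ => ?_
      rw [phase k s (fun j => a (j.1 + 1) * (v j : ℝ)) z]
    set H : (Fin k → ℤ) → ℂ := fun u =>
      ∑ v ∈ BB k s M, ex (∑ j : Fin k, a (j.1 + 1) * (v j : ℝ) * (u j : ℝ)) with hH
    have hEc : ((E : ℝ) : ℂ) = ∑ z ∈ PP s M, H (VV z) := by
      rw [hE]
      push_cast
      have h2 : ∀ v ∈ BB k s M, ((‖TT k M a v‖ : ℂ) ^ s) ^ 2 = ∑ z ∈ PP s M,
          ex (∑ j : Fin k, a (j.1 + 1) * (v j : ℝ) * ((VV z j : ℤ) : ℝ)) := by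
        intro v _
        rw [← hTeq v, ← pow_mul, mul_comm s 2]
        push_cast
        rfl
      rw [Finset.sum_congr rfl h2, Finset.sum_comm]
    have hE1 : E ≤ ∑ z ∈ PP s M, ‖H (VV z)‖ := by
      have h3 : E = ‖((E : ℝ) : ℂ)‖ := by
        rw [Complex.norm_real, Real.norm_eq_abs, abs_of_nonneg hE0]
      rw [h3, hEc]
      exact norm_sum_le _ _
    refine (hE1.trans (sum_fiber hS k s M (fun u => ‖H u‖) (fun _ => norm_nonneg _))).trans ?_
    apply mul_le_mul_of_nonneg_left _ hJ0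
    apply le_of_eq
    rw [prod_Icc_fin k (fun j => WU (a j) (s * M ^ j))]
    unfold WU
    rw [Finset.prod_univ_sum]
    refine Finset.sum_congr rfl fun u _ => ?_
    rw [← norm_prod, Finset.prod_univ_sum, hH]
    congr 1
    refine Finset.sum_congr rfl fun v _ => ?_
    rw [ex_sum]
    refine Finset.prod_congr rfl fun j _ => ?_
    congr 1
    ring
  -- combine
  have hexp1 : 4 * s ^ 2 = (2 * s) * (2 * s) := by ring
  have hW0 : 0 ≤ ∏ j ∈ Icc 1 k, WU (a j) (s * M ^ j) :=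
    Finset.prod_nonneg fun j _ => Finset.sum_nonneg fun _ _ => norm_nonneg _
  calc ‖S‖ ^ (4 * s ^ 2) = (‖S‖ ^ (2 * s)) ^ (2 * s) := by rw [hexp1, pow_mul]
    _ ≤ ((M : ℝ) ^ t * Q) ^ (2 * s) := pow_le_pow_left₀ (by positivity) hstep1 _
    _ = ((M : ℝ) ^ t) ^ (2 * s) * Q ^ (2 * s) := mul_pow _ _ _
    _ ≤ ((M : ℝ) ^ t) ^ (2 * s) *
        (((M : ℝ) ^ (2 * s)) ^ (2 * t') * ((J * (M : ℝ) ^ (2 * s)) *
          (J * ∏ j ∈ Icc 1 k, WU (a j) (s * M ^ j)))) := by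
        apply mul_le_mul_of_nonneg_left _ (by positivity)
        refine hstep2.trans ?_
        apply mul_le_mul_of_nonneg_left _ (by positivity)
        exact mul_le_mul_of_nonneg_left hEle (by positivity)
    _ = (M : ℝ) ^ (t * (2 * s) + 2 * s * (2 * t') + 2 * s) * J ^ 2 *
          ∏ j ∈ Icc 1 k, WU (a j) (s * M ^ j) := by
        rw [← pow_mul, ← pow_mul, pow_add, pow_add]
        ring
    _ = _ := by
        congr 3
        have h1 : t = 2 * s - 1 := by omega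
        have h2 : t' = s - 1 := by omega
        subst h1 h2
        obtain ⟨r, rfl⟩ : ∃ r, s = r + 1 := ⟨s - 1, by omega⟩
        have e1 : 2 * (r + 1) - 1 = 2 * r + 1 := by omega
        have e2 : r + 1 - 1 = r := by omega
        rw [e1, e2]
        have e3 : 8 * (r + 1) ^ 2 - 4 * (r + 1) = 8 * r ^ 2 + 12 * r + 4 := by
          have : 8 * (r + 1) ^ 2 = (8 * r ^ 2 + 12 * r + 4) + 4 * (r + 1) := by ring
          omega
        rw [e3]
        ring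

end Pool.Agent.Helper92.GK
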