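import Pool.Agent.Helper92.GK.M_BCA

/-!
# Project GK: module LAN (Landau's lemma at the centre of the disc)
-/

set_option autoImplicit false

namespace Pool.Agent.Helper92.GK

open Pool.Agent.Helper23.GK
open Filter Topology

/-- extraction of one zero -/
theorem extract_one (f : ℂ → ℂ) (U : Set ℂ) (hU : IsOpen U) (hf : DifferentiableOn ℂ f U) (ρ : ℂ)
    (hρ : ρ ∈ U) (hne : ¬ ∀ᶠ z in 𝓝 ρ, f z = 0) :
    ∃ (n : ℕ) (g : ℂ → ℂ), DifferentiableOn ℂ g U ∧ g ρ ≠ 0 ∧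
      ∀ z, f z = (z - ρ) ^ n * g z := by
  have han : AnalyticAt ℂ f ρ := hf.analyticAt (hU.mem_nhds hρ)
  obtain ⟨n, g0, hg0, hg0ne, hfg⟩ := (han.exists_eventuallyEq_pow_smul_nonzero_iff).2 hne
  classical
  refine ⟨n, fun z => if z = ρ then g0 ρ else f z / (z - ρ) ^ n, ?_, by simpa using hg0ne, ?_⟩
  · intro z hz
    by_cases hzρ : z = ρ
    · subst hzρ
      have h1 : (fun w => if w = z then g0 z else f w / (w - z) ^ n) =ᶠ[𝓝 z] g0 := by
        filter_upwards [hfg] with w hw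
        by_cases hwz : w = z
        · simp [hwz]
        · simp only [hwz, if_false]
          have h2 : (w - z) ^ n ≠ 0 := pow_ne_zero _ (sub_ne_zero.2 hwz)
          rw [hw, smul_eq_mul]
          field_simp
      exact (hg0.differentiableAt.congr_of_eventuallyEq h1).differentiableWithinAt
    · have h1 : (fun w => if w = ρ then g0 ρ else f w / (w - ρ) ^ n) =ᶠ[𝓝 z]
          fun w => f w / (w - ρ) ^ n := by
        filter_upwards [isOpen_ne.mem_nhds hzρ] with w hw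
        simp [hw]
      have h2 : DifferentiableAt ℂ (fun w => f w / (w - ρ) ^ n) z :=
        (hf.differentiableAt (hU.mem_nhds hz)).div (by fun_prop)
          (pow_ne_zero _ (sub_ne_zero.2 hzρ))
      exact (h2.congr_of_eventuallyEq h1).differentiableWithinAt
  · intro z
    by_cases hzρ : z = ρ
    · subst hzρ
      simpa using hfg.self_of_nhds
    · simp only [hzρ, if_false]
      have h2 : (z - ρ) ^ n ≠ 0 := pow_ne_zero _ (sub_ne_zero.2 hzρ)
      field_simp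

/-- extraction of finitely many zeros -/
theorem extract_finset (f : ℂ → ℂ) (U : Set ℂ) (hU : IsOpen U) (hf : DifferentiableOn ℂ f U)
    (hne : ∀ ρ ∈ U, ¬ ∀ᶠ z in 𝓝 ρ, f z = 0) (Z : Finset ℂ) (hZ : ∀ ρ ∈ Z, ρ ∈ U) :
    ∃ (m : ℂ → ℕ) (g : ℂ → ℂ), DifferentiableOn ℂ g U ∧ (∀ ρ ∈ Z, g ρ ≠ 0) ∧
      ∀ z, f z = (∏ ρ ∈ Z, (z - ρ) ^ m ρ) * g z := by
  classical
  induction Z using Finset.induction_on with
  | empty => exact ⟨fun _ => 0, f, hf, by simp, by simp⟩
  | insert a Z haZ ih =>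
    obtain ⟨m, g, hg, hgne, hfg⟩ := ih (fun ρ hρ => hZ ρ (Finset.mem_insert_of_mem hρ))
    have haU : a ∈ U := hZ a (Finset.mem_insert_self a Z)
    have hga : ¬ ∀ᶠ z in 𝓝 a, g z = 0 := by
      intro h
      apply hne a haU
      filter_upwards [h] with z hz
      rw [hfg z, hz, mul_zero]
    obtain ⟨n, g', hg', hg'a, hgg'⟩ := extract_one g U hU hg a haU hga
    refine ⟨Function.update m a n, g', hg', ?_, ?_⟩
    · intro ρ hρ
      rcases Finset.mem_insert.1 hρ with rfl | hρ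
      · exact hg'a
      · intro h
        apply hgne ρ hρ
        rw [hgg' ρ, h, mul_zero]
    · intro z
      rw [Finset.prod_insert haZ, hfg z, hgg' z]
      have h1 : ∏ ρ ∈ Z, (z - ρ) ^ Function.update m a n ρ = ∏ ρ ∈ Z, (z - ρ) ^ m ρ := by
        apply Finset.prod_congr rfl
        intro ρ hρ
        have hρa : ρ ≠ a := by
          rintro rfl
          exact haZ hρ
        rw [Function.update_of_ne hρa]
      rw [h1, Function.update_self]
      ring

theorem hLAN : StLan := by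
  refine ⟨8, by norm_num, fun f s0 r M hr hM hf hf0 hb hz => ?_⟩
  have hM0 : 0 < M := by linarith
  set U : Set ℂ := Metric.ball s0 (2 * r) with hUdef
  have hUo : IsOpen U := Metric.isOpen_ball
  have hUc : IsPreconnected U := (convex_ball s0 (2 * r)).isPreconnected
  have hs0U : s0 ∈ U := Metric.mem_ball_self (by linarith)
  have hfan : AnalyticOnNhd ℂ f U := hf.analyticOnNhd hUo
  have hne : ∀ ρ ∈ U, ¬ ∀ᶠ z in 𝓝 ρ, f z = 0 := by
    intro ρ hρ h
    exact hf0 (hfan.eqOn_zero_of_preconnected_of_eventuallyEq_zero hUc hρ h hs0U)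
  -- the zeros in the closed ball of radius `r / 2`
  have hsub : Metric.closedBall s0 (r / 2) ⊆ U := Metric.closedBall_subset_ball (by linarith)
  have hfin : {z : ℂ | z ∈ Metric.closedBall s0 (r / 2) ∧ f z = 0}.Finite := by
    by_contra hinf
    obtain ⟨x, hx, hacc⟩ := Set.Infinite.exists_accPt_of_subset_isCompact (s := {z : ℂ |
      z ∈ Metric.closedBall s0 (r / 2) ∧ f z = 0}) hinf
      (isCompact_closedBall s0 (r / 2)) (fun z hz => hz.1)
    have h1 : ∃ᶠ z in 𝓝[≠] x, f z = 0 := by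
      have h2 := accPt_iff_frequently_nhdsNE.1 hacc
      exact h2.mono fun z hz => hz.2
    exact hf0 (hfan.eqOn_zero_of_preconnected_of_frequently_eq_zero hUc (hsub hx) h1 hs0U)
  set Z : Finset ℂ := hfin.toFinset with hZdef
  have hZm : ∀ ρ, ρ ∈ Z ↔ (‖ρ - s0‖ ≤ r / 2 ∧ f ρ = 0) := by
    intro ρ
    rw [hZdef, Set.Finite.mem_toFinset]
    simp [dist_eq_norm]
  have hZU : ∀ ρ ∈ Z, ρ ∈ U := by
    intro ρ hρ
    exact hsub (by simpa [dist_eq_norm] using ((hZm ρ).1 hρ).1)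
  obtain ⟨m, g, hg, hgZ, hfg⟩ := extract_finset f U hUo hf hne Z hZU
  have hre : ∀ ρ ∈ Z, ρ.re < s0.re := by
    intro ρ hρ
    obtain ⟨h1, h2⟩ := (hZm ρ).1 hρ
    exact hz ρ (by simpa [dist_eq_norm] using h1.trans (by linarith)) h2
  have hneq : ∀ ρ ∈ Z, s0 - ρ ≠ 0 := by
    intro ρ hρ h
    have := hre ρ hρ
    rw [sub_eq_zero.1 h] at this
    exact lt_irrefl _ this
  have hPs0 : ∏ ρ ∈ Z, (s0 - ρ) ^ m ρ ≠ 0 :=
    Finset.prod_ne_zero_iff.2 fun ρ hρ => pow_ne_zero _ (hneq ρ hρ)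
  have hgs0 : g s0 ≠ 0 := by
    intro h
    apply hf0
    rw [hfg s0, h, mul_zero]
  -- `g` has no zeros in the ball of radius `r / 2`
  have hgne : ∀ s ∈ Metric.ball s0 (r / 2), g s ≠ 0 := by
    intro s hs h
    have hsZ : s ∈ Z := by
      rw [hZm]
      refine ⟨by simpa [dist_eq_norm] using (Metric.mem_ball.1 hs).le, ?_⟩
      rw [hfg s, h, mul_zero]
    exact hgZ s hsZ h
  -- bound for `g` on the ball of radius `r`
  have hgb : ∀ s ∈ Metric.closedBall s0 r, ‖g s‖ ≤ Real.exp M * ‖g s0‖ := by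
    intro s hs
    have hcl : Metric.closedBall s0 r ⊆ U := Metric.closedBall_subset_ball (by linarith)
    have hdc : DiffContOnCl ℂ g (Metric.ball s0 r) := by
      refine ⟨hg.mono ((Metric.ball_subset_closedBall).trans hcl), ?_⟩
      rw [closure_ball s0 hr.ne']
      exact hg.continuousOn.mono hcl
    have hs' : s ∈ closure (Metric.ball s0 r) := by rwa [closure_ball s0 hr.ne']
    refine Complex.norm_le_of_forall_mem_frontier_norm_le Metric.isBounded_ball hdc ?_ hs'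
    intro z hz'
    rw [frontier_ball s0 hr.ne'] at hz'
    have hzr : ‖z - s0‖ = r := by simpa [dist_eq_norm] using hz'
    have hle : ∀ ρ ∈ Z, ‖s0 - ρ‖ ≤ ‖z - ρ‖ := by
      intro ρ hρ
      have h1 : ‖ρ - s0‖ ≤ r / 2 := ((hZm ρ).1 hρ).1
      have h2 : ‖z - s0‖ ≤ ‖z - ρ‖ + ‖ρ - s0‖ := norm_sub_le_norm_sub_add_norm_sub z ρ s0
      rw [norm_sub_rev s0 ρ]
      linarith
    have hfz := hb z (Metric.sphere_subset_closedBall hz')
    rw [hfg z, hfg s0, norm_mul, norm_mul, norm_prod, norm_prod] at hfz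
    have hP : ∏ ρ ∈ Z, ‖(s0 - ρ) ^ m ρ‖ ≤ ∏ ρ ∈ Z, ‖(z - ρ) ^ m ρ‖ := by
      apply Finset.prod_le_prod (fun _ _ => norm_nonneg _)
      intro ρ hρ
      rw [norm_pow, norm_pow]
      exact pow_le_pow_left₀ (norm_nonneg _) (hle ρ hρ) _
    have hPpos : 0 < ∏ ρ ∈ Z, ‖(s0 - ρ) ^ m ρ‖ :=
      Finset.prod_pos fun ρ hρ => norm_pos_iff.2 (pow_ne_zero _ (hneq ρ hρ))
    have h3 : (∏ ρ ∈ Z, ‖(s0 - ρ) ^ m ρ‖) * ‖g z‖ ≤
        (∏ ρ ∈ Z, ‖(s0 - ρ) ^ m ρ‖) * (Real.exp M * ‖g s0‖) := by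
      calc (∏ ρ ∈ Z, ‖(s0 - ρ) ^ m ρ‖) * ‖g z‖ ≤ (∏ ρ ∈ Z, ‖(z - ρ) ^ m ρ‖) * ‖g z‖ :=
            mul_le_mul_of_nonneg_right hP (norm_nonneg _)
        _ ≤ Real.exp M * ((∏ ρ ∈ Z, ‖(s0 - ρ) ^ m ρ‖) * ‖g s0‖) := hfz
        _ = _ := by ring
    exact le_of_mul_le_mul_left h3 hPpos
  -- logarithm of `g`
  have hr2 : 0 < r / 2 := by linarith
  have hgd2 : DifferentiableOn ℂ g (Metric.ball s0 (r / 2)) :=
    hg.mono (Metric.ball_subset_ball (by linarith))
  obtain ⟨h, h0, hd, hder, hfe⟩ := exists_log_ball g s0 (r / 2) hr2 hgd2 hgne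
  have hbd : ∀ s ∈ Metric.ball s0 (r / 2), ‖g s‖ ≤ Real.exp M * ‖g s0‖ := by
    intro s hs
    exact hgb s (Metric.ball_subset_closedBall (Metric.ball_subset_ball (by linarith) hs))
  have hder0 : ‖deriv g s0 / g s0‖ ≤ 8 * M / r := by
    have h1 : ‖deriv h s0‖ ≤ 2 * M / (r / 4) := by
      apply Complex.norm_deriv_le_of_forall_mem_sphere_norm_le (by linarith)
      · refine (hd.mono ?_).diffContOnCl
        rw [closure_ball s0 (by linarith)]
        exact Metric.closedBall_subset_ball (by linarith)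
      · intro z hz'
        have hzr : ‖z - s0‖ = r / 4 := by simpa [dist_eq_norm] using hz'
        have h2 := log_ball_bound g h s0 (r / 2) M hr2 hM0 h0 hd hgs0 hfe hbd z
          (by rw [Metric.mem_ball, dist_eq_norm, hzr]; linarith)
        rw [hzr] at h2
        refine h2.trans (le_of_eq ?_)
        have : r / 2 - r / 4 = r / 4 := by ring
        rw [this]
        field_simp
    rw [(hder s0 (Metric.mem_ball_self hr2)).deriv] at h1
    refine h1.trans (le_of_eq ?_)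
    field_simp
    norm_num
  -- logarithmic derivative of `f`
  have hgd0 : DifferentiableAt ℂ g s0 := hg.differentiableAt (hUo.mem_nhds hs0U)
  have hld : deriv f s0 / f s0 = ∑ ρ ∈ Z, (m ρ : ℂ) * (1 / (s0 - ρ)) + deriv g s0 / g s0 := by
    have h1 : f = fun z => (∏ ρ ∈ Z, (z - ρ) ^ m ρ) * g z := funext hfg
    have h2 : deriv f s0 / f s0 = logDeriv f s0 := (logDeriv_apply f s0).symm
    rw [h2]
    conv_lhs => rw [h1]
    rw [logDeriv_mul s0 hPs0 hgs0 (by fun_prop) hgd0, logDeriv_apply g s0]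
    congr 1
    rw [logDeriv_prod (f := fun ρ z => (z - ρ) ^ m ρ)
      (fun ρ hρ => pow_ne_zero _ (hneq ρ hρ)) (fun ρ _ => by fun_prop)]
    apply Finset.sum_congr rfl
    intro ρ hρ
    rw [logDeriv_fun_pow (by fun_prop), logDeriv_apply]
    simp [deriv_sub_const]
  have hterm : ∀ ρ ∈ Z, 0 < (1 / (s0 - ρ)).re := by
    intro ρ hρ
    rw [one_div, Complex.inv_re]
    apply div_pos
    · rw [Complex.sub_re]; linarith [hre ρ hρ]
    · exact Complex.normSq_pos.2 (hneq ρ hρ)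
  have hmain : (-(deriv f s0 / f s0)).re =
      -(∑ ρ ∈ Z, (m ρ : ℝ) * (1 / (s0 - ρ)).re) - (deriv g s0 / g s0).re := by
    rw [hld, Complex.neg_re, Complex.add_re, Complex.re_sum]
    have : ∀ ρ ∈ Z, ((m ρ : ℂ) * (1 / (s0 - ρ))).re = (m ρ : ℝ) * (1 / (s0 - ρ)).re := by
      intro ρ _
      rw [← Complex.ofReal_natCast, Complex.re_ofReal_mul]
    rw [Finset.sum_congr rfl this]
    ring
  have hgre : -(deriv g s0 / g s0).re ≤ 8 * M / r := by
    have := Complex.abs_re_le_norm (deriv g s0 / g s0)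
    linarith [neg_abs_le (deriv g s0 / g s0).re]
  have hnn : ∀ ρ ∈ Z, 0 ≤ (m ρ : ℝ) * (1 / (s0 - ρ)).re := fun ρ hρ =>
    mul_nonneg (Nat.cast_nonneg _) (hterm ρ hρ).le
  constructor
  · rw [hmain]
    have := Finset.sum_nonneg hnn
    linarith
  · intro ρ hρ0 hρr
    have hρZ : ρ ∈ Z := (hZm ρ).2 ⟨hρr, hρ0⟩
    have hmρ : 1 ≤ m ρ := by
      by_contra hlt
      have hm0 : m ρ = 0 := by omega
      -- then `f ρ ≠ 0`
      have h1 : f ρ ≠ 0 := by
        rw [hfg ρ]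
        refine mul_ne_zero ?_ (hgZ ρ hρZ)
        rw [Finset.prod_ne_zero_iff]
        intro τ hτ
        by_cases hτρ : τ = ρ
        · rw [hτρ, hm0, pow_zero]; exact one_ne_zero
        · exact pow_ne_zero _ (sub_ne_zero.2 (Ne.symm hτρ))
      exact h1 hρ0
    have h2 : (1 / (s0 - ρ)).re ≤ ∑ τ ∈ Z, (m τ : ℝ) * (1 / (s0 - τ)).re := by
      calc (1 / (s0 - ρ)).re = 1 * (1 / (s0 - ρ)).re := by ring
        _ ≤ (m ρ : ℝ) * (1 / (s0 - ρ)).re := by
          apply mul_le_mul_of_nonneg_right _ (hterm ρ hρZ).le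
          exact_mod_cast hmρ
        _ ≤ _ := Finset.single_le_sum hnn hρZ
    rw [hmain]
    linarith

end Pool.Agent.Helper92.GK
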