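import Pool.Agent.Helper23.GK.StC
import Pool.Agent.Helper90.MT.A4

/-!
# Project GK: module PER (Perron bound with the integral of the Dirichlet series)

The representation by an integral is the one of `Pool.Agent.Helper90.MT.a4`.
-/

set_option autoImplicit false

namespace Pool.Agent.Helper92.GK

open Pool.Agent.Helper23.GK
open Finset Complex MeasureTheory Filter

open Pool.Agent.Helper90.MT.A4 in
theorem hPER : StPer := by
  refine ⟨1, one_pos, ?_⟩
  intro f σ x hσ1 hσ2 hx hf
  have hx0 : 0 < x := by linarith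
  set s : ℝ → ℂ := fun ξ => (σ : ℂ) + (2 * Real.pi * ξ : ℝ) * I with hs
  have hsre : ∀ ξ, (s ξ).re = σ := fun ξ => by simp [hs]
  have hscont : Continuous s := by rw [hs]; fun_prop
  have hs0 : ∀ ξ, s ξ ≠ 0 := fun ξ => s_ne hσ1 _
  set F : ℕ → ℝ → ℂ := fun n ξ =>
    cexp ((Real.log x : ℝ) * s ξ) * LSeries.term f (s ξ) n * (1 / (s ξ) ^ 2) with hF
  have hexp : ∀ ξ, ‖cexp ((Real.log x : ℝ) * s ξ)‖ = x ^ σ := by
    intro ξ
    rw [Complex.norm_exp, Real.rpow_def_of_pos hx0]
    congr 1
    rw [re_ofReal_mul, hsre]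
  have hterm : ∀ n ξ, ‖LSeries.term f (s ξ) n‖ = ‖LSeries.term f (σ : ℂ) n‖ := by
    intro n ξ
    rw [LSeries.norm_term_eq, LSeries.norm_term_eq, hsre, ofReal_re]
  have hnorm : ∀ n ξ, ‖F n ξ‖ = x ^ σ * ‖LSeries.term f (σ : ℂ) n‖ * ‖1 / (s ξ) ^ 2‖ := by
    intro n ξ
    rw [hF, norm_mul, norm_mul, hexp, hterm]
  have hFform : ∀ n, n ≠ 0 → F n = fun ξ => f n * (cexp ((Real.log (x / n) : ℝ) * s ξ) *
      (1 / (s ξ) ^ 2)) := by
    intro n hn
    funext ξ
    have hn0 : (n : ℂ) ≠ 0 := Nat.cast_ne_zero.2 hn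
    have hn1 : (n : ℝ) ≠ 0 := Nat.cast_ne_zero.2 hn
    rw [hF]
    simp only
    rw [LSeries.term_of_ne_zero hn, Real.log_div hx0.ne' hn1, ofReal_sub, sub_mul, Complex.exp_sub,
      cpow_def_of_ne_zero hn0, Complex.ofReal_log (Nat.cast_nonneg n), ofReal_natCast]
    ring
  have hFint : ∀ n, Integrable (F n) := by
    intro n
    by_cases hn : n = 0
    · have : F n = fun _ => 0 := by
        funext ξ
        rw [hF, hn]
        simp
      rw [this]
      exact integrable_zero _ _ _
    · have hb : Integrable (fun ξ : ℝ => x ^ σ * ‖LSeries.term f (σ : ℂ) n‖ * ‖1 / (s ξ) ^ 2‖) :=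
        (integrable_inv hσ1).norm.const_mul _
      refine Integrable.mono' hb ?_ (Eventually.of_forall fun ξ => (hnorm n ξ).le)
      rw [hFform n hn]
      refine Continuous.aestronglyMeasurable ?_
      refine continuous_const.mul (Continuous.mul (by fun_prop) ?_)
      exact continuous_inv hσ1
  have hFval : ∀ n, ∫ ξ, F n ξ = f n * ((Real.posLog (x / n) : ℝ) : ℂ) := by
    intro n
    by_cases hn : n = 0
    · have h0 : F n = fun _ => 0 := by
        funext ξ
        rw [hF, hn]
        simp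
      rw [h0, integral_zero, hn]
      simp
    · rw [hFform n hn, integral_const_mul, ← perron hσ1, max_comm]
      rfl
  have hFsum : Summable fun n => ∫ ξ, ‖F n ξ‖ := by
    have h1 : (fun n => ∫ ξ, ‖F n ξ‖) = fun n => ‖LSeries.term f (σ : ℂ) n‖ *
        (x ^ σ * ∫ ξ, ‖1 / (s ξ) ^ 2‖) := by
      funext n
      simp only [hnorm]
      rw [integral_const_mul]
      ring
    rw [h1]
    exact hf.norm.mul_right _
  have hmain := hasSum_integral_of_summable_integral_norm hFint hFsum
  have hG : ∀ ξ, ∑' n, F n ξ = cexp ((Real.log x : ℝ) * s ξ) * LSeries f (s ξ) * (1 / (s ξ) ^ 2) := by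
    intro ξ
    rw [hF]
    simp only
    rw [tsum_mul_right, tsum_mul_left]
    rfl
  have hsum : ∑ n ∈ Ioc 0 ⌊x⌋₊, f n * ((Real.posLog (x / n) : ℝ) : ℂ) =
      ∫ ξ, cexp ((Real.log x : ℝ) * s ξ) * LSeries f (s ξ) * (1 / (s ξ) ^ 2) := by
    have h1 := hmain.tsum_eq
    simp only [hG, hFval] at h1
    rw [← h1]
    refine (tsum_eq_sum fun n hn => ?_).symm
    rw [Finset.mem_Ioc, not_and_or, not_lt, not_le] at hn
    rcases hn with hn | hn
    · have : n = 0 := by omega
      rw [this]
      simp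
    · have h2 : x < n := (Nat.floor_lt hx0.le).1 hn
      have h3 : Real.posLog (x / n) = 0 := by
        rw [Real.posLog_eq_zero_iff, abs_of_nonneg (by positivity), div_le_one (by linarith)]
        exact h2.le
      rw [h3]
      simp
  -- continuity of the Dirichlet series on the vertical line
  have hcont : Continuous (fun y : ℝ => LSeries f ((σ : ℂ) + y * I)) := by
    unfold LSeries
    refine continuous_tsum (u := fun n => ‖LSeries.term f (σ : ℂ) n‖) (fun n => ?_) hf.norm ?_
    · by_cases hn : n = 0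
      · subst hn
        simp only [LSeries.term_zero]
        exact continuous_const
      · have hn0 : (n : ℂ) ≠ 0 := Nat.cast_ne_zero.2 hn
        have : (fun y : ℝ => LSeries.term f ((σ : ℂ) + y * I) n) =
            fun y : ℝ => f n / cexp (Complex.log n * ((σ : ℂ) + y * I)) := by
          funext y
          rw [LSeries.term_of_ne_zero hn, cpow_def_of_ne_zero hn0]
        rw [this]
        exact Continuous.div continuous_const (by fun_prop) fun y => Complex.exp_ne_zero _
    · intro n y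
      rw [LSeries.norm_term_eq, LSeries.norm_term_eq]
      simp
  set g : ℝ → ℝ := fun y => ‖LSeries f ((σ : ℂ) + y * I)‖ / (1 + y ^ 2) with hg
  have hgcont : Continuous g := by
    refine hcont.norm.div (by fun_prop) fun y => ?_
    positivity
  have hg0 : ∀ y, 0 ≤ g y := fun y => by rw [hg]; positivity
  have hLb : ∀ y : ℝ, ‖LSeries f ((σ : ℂ) + y * I)‖ ≤ ∑' n, ‖LSeries.term f (σ : ℂ) n‖ := by
    intro y
    have h1 : ∀ n, ‖LSeries.term f ((σ : ℂ) + y * I) n‖ = ‖LSeries.term f (σ : ℂ) n‖ := by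
      intro n
      rw [LSeries.norm_term_eq, LSeries.norm_term_eq]
      simp
    have h2 : Summable fun n => ‖LSeries.term f ((σ : ℂ) + y * I) n‖ := by
      simp only [h1]
      exact hf.norm
    refine (norm_tsum_le_tsum_norm h2).trans (le_of_eq ?_)
    simp only [h1]
  have hgint : Integrable g := by
    have h1 : Integrable (fun y : ℝ => (∑' n, ‖LSeries.term f (σ : ℂ) n‖) * (1 + y ^ 2)⁻¹) :=
      integrable_inv_one_add_sq.const_mul _
    refine Integrable.mono' h1 hgcont.aestronglyMeasurable (Eventually.of_forall fun y => ?_)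
    rw [Real.norm_of_nonneg (hg0 y), hg]
    simp only
    rw [div_eq_mul_inv]
    exact mul_le_mul_of_nonneg_right (hLb y) (by positivity)
  refine ⟨hgint, ?_⟩
  rw [hsum]
  have hgs : Integrable (fun ξ : ℝ => x ^ σ * g (2 * Real.pi * ξ)) := by
    apply Integrable.const_mul
    exact hgint.comp_mul_left' (by positivity)
  have hpt : ∀ ξ : ℝ, ‖cexp ((Real.log x : ℝ) * s ξ) * LSeries f (s ξ) * (1 / (s ξ) ^ 2)‖ ≤
      x ^ σ * g (2 * Real.pi * ξ) := by
    intro ξ
    rw [norm_mul, norm_mul, hexp, hg]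
    simp only
    have h1 : (s ξ) = (σ : ℂ) + ((2 * Real.pi * ξ : ℝ) : ℂ) * I := rfl
    have h2 : 1 + (2 * Real.pi * ξ) ^ 2 ≤ ‖s ξ‖ ^ 2 := by
      rw [h1, Complex.sq_norm, Complex.normSq_add_mul_I]
      nlinarith
    rw [mul_assoc]
    apply mul_le_mul_of_nonneg_left _ (by positivity)
    rw [norm_div, norm_one, norm_pow, mul_one_div, h1]
    rw [h1] at h2
    exact div_le_div_of_nonneg_left (norm_nonneg _) (by positivity) h2
  calc ‖∫ ξ, cexp ((Real.log x : ℝ) * s ξ) * LSeries f (s ξ) * (1 / (s ξ) ^ 2)‖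
      ≤ ∫ ξ : ℝ, x ^ σ * g (2 * Real.pi * ξ) :=
        norm_integral_le_of_norm_le hgs (Eventually.of_forall hpt)
    _ = x ^ σ * ∫ ξ : ℝ, g (2 * Real.pi * ξ) := integral_const_mul _ _
    _ = x ^ σ * (|(2 * Real.pi)⁻¹| • ∫ y : ℝ, g y) := by
        rw [Measure.integral_comp_mul_left]
    _ ≤ 1 * x ^ σ * ∫ y : ℝ, g y := by
        have h1 : 0 ≤ ∫ y : ℝ, g y := integral_nonneg hg0
        have h2 : |(2 * Real.pi)⁻¹| ≤ 1 := by
          rw [abs_of_pos (by positivity)]
          exact inv_le_one_of_one_le₀ (by linarith [Real.pi_gt_three])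
        rw [smul_eq_mul, one_mul]
        apply mul_le_mul_of_nonneg_left _ (by positivity)
        nlinarith

end Pool.Agent.Helper92.GK
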