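import Pool.Agent.Helper23.GK.StC
import Pool.Agent.Helper90.MT.A5

/-!
# Project GK: module RML (removing powers of the logarithm, hypotheses only up to `N`)

The proof is the one of `Pool.Agent.Helper90.MT.a5`.
-/

set_option autoImplicit false

namespace Pool.Agent.Helper92.GK

open Pool.Agent.Helper23.GK
open Finset Complex

open Pool.Agent.Helper90.MT.A5 in
theorem hRML : StRml := by
  intro k
  obtain ⟨C, hC, hF⟩ := exists_bound k
  refine ⟨1 + 4 * C, by positivity, ?_⟩
  intro a B N ha hN hB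
  obtain ⟨L, hL⟩ : ∃ L, L = Real.log N := ⟨_, rfl⟩
  have hN' : (2 : ℝ) ≤ N := by exact_mod_cast hN
  have hN1 : (1 : ℝ) ≤ N := by linarith
  have hl2 : 0 < Real.log 2 := Real.log_pos (by norm_num)
  have h2L : Real.log 2 ≤ L := by rw [hL]; exact Real.log_le_log (by norm_num) hN'
  have hL0 : 0 < L := by linarith
  have hB0 : 0 ≤ B := by
    have := (norm_nonneg _).trans (hB 1 le_rfl hN1)
    linarith
  obtain ⟨c, hc⟩ : ∃ c : ℕ → ℂ, c = fun n => a n * ((Real.log n : ℝ) : ℂ) ^ k := ⟨_, rfl⟩
  have hc' : ∀ n, a n * ((Real.log n : ℝ) : ℂ) ^ k = c n := by intro n; rw [hc]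
  simp only [hc'] at hB
  -- the integrand
  have hterm : ∀ n ∈ Ioc 0 N, a n * ((Real.posLog ((N : ℝ) / n) : ℝ) : ℂ) =
      (((L ^ k)⁻¹ : ℝ) : ℂ) * (c n * ((Real.posLog ((N : ℝ) / n) : ℝ) : ℂ)) +
      ∫ v in (Real.log 2)..L,
        c n * (((Real.posLog (Real.exp v / n) * F k L v : ℝ)) : ℂ) := by
    intro n hn
    rw [mem_Ioc] at hn
    rw [intervalIntegral.integral_const_mul, intervalIntegral.integral_ofReal]
    rcases Nat.lt_or_ge n 2 with h | h
    · have h1 : n = 1 := by omega
      have h0 : c n = 0 := by rw [hc, h1]; simp [ha]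
      rw [h0, h1, ha]
      simp
    · rw [hL, term k h hn.2]
      have hn2 : (2 : ℝ) ≤ n := by exact_mod_cast h
      have hln : 0 < Real.log n := Real.log_pos (by linarith)
      have hln' : ((Real.log n : ℝ) : ℂ) ^ k ≠ 0 := by
        exact_mod_cast pow_ne_zero _ hln.ne'
      rw [hc]
      simp only [Complex.ofReal_sub, Complex.ofReal_mul, Complex.ofReal_inv, Complex.ofReal_pow]
      generalize ((Real.log n : ℝ) : ℂ) = z at hln' ⊢
      field_simp
      ring
  rw [sum_congr rfl hterm, sum_add_distrib, ← mul_sum]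
  have hpos : ∀ v ∈ Set.uIcc (Real.log 2) L, 0 < v := by
    intro v hv
    rw [Set.uIcc_of_le h2L] at hv
    exact lt_of_lt_of_le hl2 hv.1
  have hcont : ∀ n : ℕ, 1 ≤ n → ContinuousOn
      (fun v : ℝ => c n * (((Real.posLog (Real.exp v / n) * F k L v : ℝ)) : ℂ))
      (Set.uIcc (Real.log 2) L) := by
    intro n hn
    have h1 : Continuous (fun v : ℝ => Real.posLog (Real.exp v / n)) := by
      have : (fun v : ℝ => Real.posLog (Real.exp v / n)) = fun v => max 0 (v - Real.log n) := by
        funext v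
        exact posLog_exp hn v
      rw [this]
      fun_prop
    apply ContinuousOn.mul continuousOn_const
    exact Complex.continuous_ofReal.comp_continuousOn (h1.continuousOn.mul (contF k _ hpos))
  rw [← intervalIntegral.integral_finsetSum
    (fun n hn => (hcont n (mem_Ioc.mp hn).1).intervalIntegrable)]
  -- identify the sum inside
  have hsum : ∀ v : ℝ, v ≤ L → Real.log 2 ≤ v →
      ‖∑ n ∈ Ioc 0 N, c n * (((Real.posLog (Real.exp v / n) * F k L v : ℝ)) : ℂ)‖ ≤
        B * Real.exp v * F k L v := by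
    intro v hv hv2
    have hFn : 0 ≤ F k L v := F_nonneg k (by linarith) hv
    have e1 : ∑ n ∈ Ioc 0 N, c n * (((Real.posLog (Real.exp v / n) * F k L v : ℝ)) : ℂ) =
        (∑ n ∈ Ioc 0 ⌊Real.exp v⌋₊, c n * ((Real.posLog (Real.exp v / n) : ℝ) : ℂ)) *
          ((F k L v : ℝ) : ℂ) := by
      rw [sum_mul]
      have hle : ⌊Real.exp v⌋₊ ≤ N := by
        apply Nat.floor_le_of_le
        calc Real.exp v ≤ Real.exp L := Real.exp_le_exp.mpr hv
          _ = N := by rw [hL, Real.exp_log (by linarith)]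
      symm
      apply sum_subset_zero_on_sdiff
      · exact Ioc_subset_Ioc_right hle
      · intro n hn
        rw [mem_sdiff, mem_Ioc, mem_Ioc] at hn
        have hn1 : 1 ≤ n := by omega
        have hn2 : ⌊Real.exp v⌋₊ < n := by omega
        have hn3 : Real.exp v < n := (Nat.floor_lt (Real.exp_pos v).le).mp hn2
        have hn4 : Real.posLog (Real.exp v / n) = 0 := by
          rw [Real.posLog_eq_zero_iff, abs_of_nonneg (by positivity),
            div_le_one (by positivity)]
          exact hn3.le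
        rw [hn4]
        simp
      · intro n _
        push_cast
        ring
    rw [e1, norm_mul, Complex.norm_real, Real.norm_of_nonneg hFn]
    have hvN : Real.exp v ≤ (N : ℝ) := by
      calc Real.exp v ≤ Real.exp L := Real.exp_le_exp.mpr hv
        _ = N := by rw [hL, Real.exp_log (by linarith)]
    exact mul_le_mul_of_nonneg_right (hB _ (Real.one_le_exp (by linarith)) hvN) hFn
  have hint : ‖∫ v in (Real.log 2)..L,
      ∑ n ∈ Ioc 0 N, c n * (((Real.posLog (Real.exp v / n) * F k L v : ℝ)) : ℂ)‖ ≤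
      4 * C * B * N * (L ^ k)⁻¹ := by
    have h1 : ∀ᵐ v : ℝ, v ∈ Set.Ioc (Real.log 2) L →
        ‖∑ n ∈ Ioc 0 N, c n * (((Real.posLog (Real.exp v / n) * F k L v : ℝ)) : ℂ)‖ ≤
        B * C * (L ^ k)⁻¹ * Real.exp (3 / 4 * L) * Real.exp (1 / 4 * v) := by
      refine Filter.Eventually.of_forall ?_
      intro v hv
      refine (hsum v hv.2 hv.1.le).trans ?_
      calc B * Real.exp v * F k L v
          ≤ B * Real.exp v * (C * (L ^ k)⁻¹ * Real.exp (3 / 4 * (L - v))) := by
            gcongr
            exact hF L v hv.1.le hv.2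
        _ = B * C * (L ^ k)⁻¹ * (Real.exp v * Real.exp (3 / 4 * (L - v))) := by ring
        _ = B * C * (L ^ k)⁻¹ * (Real.exp (3 / 4 * L) * Real.exp (1 / 4 * v)) := by
          rw [← Real.exp_add, ← Real.exp_add]; ring_nf
        _ = _ := by ring
    refine (intervalIntegral.norm_integral_le_of_norm_le h2L h1 ?_).trans ?_
    · apply Continuous.intervalIntegrable
      fun_prop
    · rw [intervalIntegral.integral_const_mul, intervalIntegral.integral_comp_mul_left
        (fun x => Real.exp x) (by norm_num), integral_exp]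
      have e1 : Real.exp (3 / 4 * L) * Real.exp (1 / 4 * L) = N := by
        rw [← Real.exp_add]
        have : 3 / 4 * L + 1 / 4 * L = L := by ring
        rw [this, hL, Real.exp_log (by linarith)]
      have e2 : 0 ≤ Real.exp (1 / 4 * Real.log 2) := (Real.exp_pos _).le
      have e3 : 0 ≤ B * C * (L ^ k)⁻¹ * Real.exp (3 / 4 * L) := by positivity
      have e4 : B * C * (L ^ k)⁻¹ * Real.exp (3 / 4 * L) *
          ((1 / 4 : ℝ)⁻¹ • (Real.exp (1 / 4 * L) - Real.exp (1 / 4 * Real.log 2))) =
          4 * C * B * (Real.exp (3 / 4 * L) * Real.exp (1 / 4 * L)) * (L ^ k)⁻¹ -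
          4 * (B * C * (L ^ k)⁻¹ * Real.exp (3 / 4 * L)) * Real.exp (1 / 4 * Real.log 2) := by
        rw [smul_eq_mul]
        ring
      rw [e4, e1]
      have := mul_nonneg e3 e2
      linarith
  have hmain := hB N hN1 le_rfl
  rw [Nat.floor_natCast] at hmain
  calc _ ≤ ‖(((L ^ k)⁻¹ : ℝ) : ℂ) *
        ∑ n ∈ Ioc 0 N, c n * ((Real.posLog ((N : ℝ) / n) : ℝ) : ℂ)‖ +
        ‖∫ v in (Real.log 2)..L,
          ∑ n ∈ Ioc 0 N, c n * (((Real.posLog (Real.exp v / n) * F k L v : ℝ)) : ℂ)‖ :=
        norm_add_le _ _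
    _ ≤ (L ^ k)⁻¹ * (B * N) + 4 * C * B * N * (L ^ k)⁻¹ := by
        rw [norm_mul, Complex.norm_real, Real.norm_of_nonneg (by positivity)]
        gcongr
    _ = (1 + 4 * C) * B * N / Real.log N ^ k := by
        rw [← hL]; ring

end Pool.Agent.Helper92.GK
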